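import Pool.Agent.H579.R.Dsp5R
import Pool.Agent.H579.R.Reg

/-!
# `p_n + 2 P_1(n), ..., p_n + 2 P_k(n)` simultaneously prime in arbitrary sets of `n`, for polynomials of degree one with
# almost all constant terms in the residue classes of moduli up to the power `2 / 3 - ρ`

Q1 asks whether `p_n + 2 P(n)` is prime for infinitely many `n`, for every integer-valued polynomial `P` with
positive leading coefficient. Here `P_i(n) = G_i(n) + c_i` with constants `c_i`, where the `G_i` are polynomials `u_i X` of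
degree `≤ 1` or, more generally, ARBITRARY nondecreasing functions with values in the non-negative integers, and `n` is
restricted to an arbitrary set `S` with `p_n + 2 G_i(n) ≤ N` for `n ∈ S` (for instance `S = [1, x]` and `G_i(n) = u_i n`,
where `p_x + 2 u_i x ≤ N`; the slopes `u_i` may be as large as a power of `log N`). The constants are taken from residue
classes `2 c_i ≡ a_i (mod q_i)`, where the moduli `q_i` may be as large as `N ^ (2 / 3 - ρ)`; then there are only
`N ^ (1 / 3 + ρ)` possible values for each `c_i ≤ N / 2`. If the moduli are divisible by all primes `≤ w`, the number of the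
`n ∈ S` for which all the `p_n + 2 P_i(n)` are prime is

  `∏ (q_i / φ(q_i)) * #{n ∈ S : (p_n + 2 G_i(n) + a_i, q_i) = 1 for all i} / log ^ k N`

with an error of at most `η ∏ (q_i / φ(q_i)) (#S + N / log ^ A N) / log ^ k N`, for all vectors of constants in the classes
with the exception of at most `C log log N / (η ^ 2 w)` times their expected number. The exceptional set may depend on
the `G_i` and `S`, but `C` and the bounds are uniform in them.

The moduli have to be regular: not divisible by a member of a set `D` (depending on `N` only) of at most `log ^ c N`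
integers, the RADICALS of which are larger than any given power of `log N`. There is NO condition on moduli with a
radical `≤ log ^ B N`, for instance on the powers `≤ N ^ (2 / 3 - ρ)` of the product of the primes up to `K log log N`.
Proof: `Pool.Agent.H579.G.Dsp1` to `Dsp5`, `Pool.Agent.H579.R` (mean squares over the characters for the difference
between the primes and the sieve model, along arbitrary sequences, and the mean square of the sieve model in classes;
Postnikov's formula and Vinogradov's method for the conductors with a small radical, `H567/PP`).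
-/

set_option autoImplicit false

open Finset

namespace Pool.Agent.Results.MP_3aaefc_nt.ConstantsInLargeModuli

/-- the radical of `d`: the product of the primes dividing `d` -/
def rad (d : ℕ) : ℕ := ∏ l ∈ d.primeFactors, l

/-- The `n`-th prime: `p 1 = 2`, `p 2 = 3`. -/
noncomputable def p (n : ℕ) : ℕ := Nat.nth Nat.Prime (n - 1)

open Classical in
/-- The `n ∈ S` for which all the numbers `p_n + 2 (G_i(n) + c_i)` are prime. -/
noncomputable def good {k : ℕ} (S : Finset ℕ) (G : Fin k → ℕ → ℕ) (c : Fin k → ℕ) : Finset ℕ :=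
  S.filter (fun n => ∀ i, (p n + 2 * (G i n + c i)).Prime)

open Classical in
/-- The `n ∈ S` for which all the numbers `p_n + 2 G_i(n) + a_i` are prime to `q_i`. -/
noncomputable def loc {k : ℕ} (S : Finset ℕ) (G : Fin k → ℕ → ℕ) (q a : Fin k → ℕ) : Finset ℕ :=
  S.filter (fun n => ∀ i, (p n + 2 * G i n + a i).Coprime (q i))

/-- the product of the `q_i / φ(q_i)` -/
noncomputable def dens {k : ℕ} (q : Fin k → ℕ) : ℝ := ∏ i, (q i : ℝ) / Nat.totient (q i)

open Classical in
/-- The vectors of constants `c` with `2 ≤ 2 c_i ≤ N`, `2 c_i ≡ a_i (mod q_i)`, for which the number of the `n ∈ S` with all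
`p_n + 2 (G_i(n) + c_i)` prime differs from `dens q * #loc / log ^ k N` by more than `η * dens q * Y / log ^ k N`. -/
noncomputable def exceptional {k : ℕ} (η Y : ℝ) (N : ℕ) (S : Finset ℕ) (G : Fin k → ℕ → ℕ) (q a : Fin k → ℕ) :
    Finset (Fin k → ℕ) :=
  (Fintype.piFinset fun _ => Icc 1 N).filter (fun c => (∀ i, 2 * c i ≤ N ∧ 2 * c i ≡ a i [MOD q i]) ∧
    η * dens q * (Y / Real.log N ^ k) <
      |((good S G c).card : ℝ) - dens q * ((loc S G q a).card / Real.log N ^ k)|)

theorem p_strict {a b : ℕ} (ha : 1 ≤ a) (h : a < b) : p a < p b :=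
  Nat.nth_strictMono Nat.infinite_setOfPred_prime (by omega)

/-- **All regular moduli, all classes, all sets of `n`, all nondecreasing functions, almost all vectors of constants.** -/
theorem result (k A : ℕ) (hk : 1 ≤ k) : ∃ C : ℝ, ∀ ρ : ℝ, 0 < ρ → ∃ c : ℕ, ∀ B : ℕ, ∃ N₀ : ℕ, ∀ N : ℕ, N₀ ≤ N →
    ∃ D : Finset ℕ, (D.card : ℝ) ≤ Real.log N ^ c ∧ (∀ d ∈ D, Real.log N ^ B < (rad d : ℝ)) ∧
      ∀ q : Fin k → ℕ, (∀ i, 1 ≤ q i ∧ (q i : ℝ) ≤ (N : ℝ) ^ (2 / 3 - ρ) ∧
        ((rad (q i) : ℝ) ≤ Real.log N ^ B ∨ ∀ d ∈ D, ¬ d ∣ q i)) →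
      ∀ w : ℕ, 1 ≤ w → (w : ℝ) ≤ Real.log N → (∀ l : ℕ, l.Prime → l ≤ w → ∀ i, l ∣ q i) →
      ∀ a : Fin k → ℕ, ∀ (S : Finset ℕ) (G : Fin k → ℕ → ℕ), (∀ i, Monotone (G i)) →
      (∀ n ∈ S, 1 ≤ n ∧ ∀ i, p n + 2 * G i n ≤ N) → ∀ η : ℝ, 0 < η → η ≤ 1 →
        ((exceptional η (S.card + N / Real.log N ^ A) N S G q a).card : ℝ) ≤
          C * Real.log (Real.log N) / (η ^ 2 * w) * ∏ i, ((N : ℝ) / q i) := by
  classical
  obtain ⟨C, hC, h1⟩ := Pool.Agent.H579.R.sparse_natR k A hk
  refine ⟨C, fun ρ hρ => ?_⟩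
  obtain ⟨c, h2⟩ := h1 ρ hρ
  refine ⟨c, fun B => ?_⟩
  obtain ⟨N₀, h3⟩ := h2 B
  refine ⟨N₀ + 3, fun N hN => ?_⟩
  obtain ⟨D, hD1, hD2, hD3⟩ := h3 N (by omega)
  refine ⟨D, hD1, hD2, fun q hq w hw1 hwL hwq a S G hG hS η hη0 hη1 => ?_⟩
  have hN3 : (3 : ℝ) ≤ N := by exact_mod_cast (by omega : 3 ≤ N)
  have hL0 : 0 ≤ Real.log N := Real.log_nonneg (by linarith)
  obtain ⟨F, hF⟩ : ∃ F : Fin k → ℕ → ℕ, F = fun i n => p n + 2 * G i n := ⟨_, rfl⟩
  have h7 := hD3 q (fun i => ⟨(hq i).1, (hq i).2.1,
    Pool.Agent.H579.R.reg_of_rad (hq i).1 hD2 (hq i).2.2⟩) w hw1 hwL hwq a S F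
    (by
      intro i n hn
      obtain ⟨k1, k2⟩ := hS n hn
      rw [hF]
      refine mem_Icc.2 ⟨?_, k2 i⟩
      have : 1 ≤ p n := (Nat.prime_nth_prime _).one_le
      show 1 ≤ p n + 2 * G i n
      omega)
    (by
      intro i n hn m hm e
      obtain ⟨k1, k2⟩ := hS n (mem_coe.1 hn)
      obtain ⟨k3, k4⟩ := hS m (mem_coe.1 hm)
      rw [hF] at e
      have e' : p n + 2 * G i n = p m + 2 * G i m := e
      rcases lt_trichotomy n m with h5 | h5 | h5
      · have h6 := p_strict k1 h5
        have h7 := hG i h5.le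
        omega
      · exact h5
      · have h6 := p_strict k3 h5
        have h7 := hG i h5.le
        omega)
    (S.card + N / Real.log N ^ A)
    (by
      have : (0 : ℝ) ≤ N / Real.log N ^ A := by positivity
      linarith)
    (by
      have : (0 : ℝ) ≤ S.card := Nat.cast_nonneg _
      linarith)
    η hη0 hη1
  refine le_trans (Nat.cast_le.2 ?_) h7
  refine card_le_card_of_injOn (fun c i => 2 * c i) (fun c hc => ?_) (fun c _ c' _ e => ?_)
  · rw [mem_coe] at hc
    unfold exceptional at hc
    rw [mem_filter, Fintype.mem_piFinset] at hc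
    obtain ⟨e1, e2, e3⟩ := hc
    rw [mem_coe]
    unfold Pool.Agent.H579.G.excN
    rw [mem_filter, Fintype.mem_piFinset]
    refine ⟨fun i => ?_, fun i => (e2 i).2, ?_⟩
    · have k1 := (mem_Icc.1 (e1 i)).1
      have k2 := (e2 i).1
      exact mem_Icc.2 ⟨by show 1 ≤ 2 * c i; omega, k2⟩
    have f0 : (Pool.Agent.H579.G.den q : ℝ) = dens q := rfl
    have f1 : Pool.Agent.H579.G.prN S F (fun i => 2 * c i) = good S G c := by
      unfold Pool.Agent.H579.G.prN good
      refine filter_congr fun n _ => forall_congr' fun i => ?_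
      rw [hF]
      have : p n + 2 * G i n + 2 * c i = p n + 2 * (G i n + c i) := by ring
      show (p n + 2 * G i n + 2 * c i).Prime ↔ _
      rw [this]
    have f2 : Pool.Agent.H579.G.cpN S F q a = loc S G q a := by
      unfold Pool.Agent.H579.G.cpN loc
      refine filter_congr fun n _ => forall_congr' fun i => ?_
      rw [hF]
    rw [f0, f1, f2]
    exact e3
  · funext i
    have := congrFun e i
    dsimp only at this
    omega

end Pool.Agent.Results.MP_3aaefc_nt.ConstantsInLargeModuli
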