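import Pool.Agent.H537.TP.Fin2

/-!
# Constant polynomials: limits to the equidistribution of the primes `p_n` with `p_n + 2 c` rough

Q1 asks whether `p_n + 2 P(n)` is prime for infinitely many `n`. Let `P = c` be a positive constant. We study
the indices `n` for which `p_n + 2 c` has no prime factor `≤ z`, where `z` is any integer up to a power
`N ^ (1 / u)`. Their number with `p_n` in an interval of length `N` and in a residue class to a small modulus
is the one predicted by Hardy and Littlewood (fundamental lemma of the sieve and Bombieri-Vinogradov). For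
EVERY constant `1 ≤ c ≤ N ^ A`, every such `z` and every interval `(Y, Y + N]` with `Y ≤ A N` the prediction
fails by a constant factor on average over the moduli near `N / (log N) ^ B`.

Proof (`Pool.Agent.H537.TP.mainP`, uniformly for all polynomials). There is an `a` just above `Y` such that
`a (a + 2 c)` has no prime factor up to `w = (log N) ^ (B / (K + 1))` and is divisible by all primes between
`w` and `(log N) ^ (B / K)` (`a` being divisible by those which are `> z`). If `p = a + q m` is counted then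
neither `q` nor `m` has a prime factor in common with `a`, nor one `≤ z` in common with `a + 2 c`, and the sum
over `q` of the numbers of the `p ≡ a (mod q)` is the sum over the cofactors `m ≤ 2 (log N) ^ B` of the
numbers of the `p ≡ a (mod m)` in intervals, which are given by the fundamental lemma with the error terms of
the theorem of Bombieri and Vinogradov. The inclusion and exclusion of the prime factors of `m` stops after
`K` steps, and the number of the `m` coprime to these primes differs from its expected value by a constant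
factor, in the direction given by the parity of `K`. For the primes (no sieve) this is the argument of
Friedlander and Granville (1989).
-/

set_option autoImplicit false

open Finset Filter Polynomial

namespace Pool.Agent.Results.MP_3aaefc_nt.LimitsForConstants

/-- the `n`-th prime, `p 1 = 2` -/
noncomputable def p (n : ℕ) : ℕ := Nat.nth Nat.Prime (n - 1)

/-- the number of the indices `n ≥ 1` with `Y < p_n ≤ Y + N`, `p_n ≡ a (mod q)`, for which no prime `r ≤ z`
divides `p_n + 2 c` -/
noncomputable def count (c z Y N q a : ℕ) : ℕ :=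
  {n : ℕ | 1 ≤ n ∧ Y < p n ∧ p n ≤ Y + N ∧ p n ≡ a [MOD q] ∧
    ∀ r : ℕ, r.Prime → r ≤ z → ¬ r ∣ p n + 2 * c}.ncard

/-- the expected number: `N / (φ(q) log N)` times the product of `1 - 1 / (r - 1)` over the odd primes
`r ≤ z` which divide neither `q` nor `c` -/
noncomputable def expected (c z N q : ℕ) : ℝ :=
  (N : ℝ) / Real.log N / q.totient *
    ∏ r ∈ (Icc 1 z).filter (fun r : ℕ => r.Prime ∧ r ≠ 2 ∧ ¬ r ∣ q ∧ ¬ r ∣ c), (1 - 1 / ((r : ℝ) - 1))

open Classical in
/-- the moduli `Q < q ≤ 2 Q` coprime to `a` for which no prime `r ≤ z` divides `q` and `a + 2 c` (the other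
moduli do not matter) -/
noncomputable def moduli (c z Q a : ℕ) : Finset ℕ :=
  (Ioc Q (2 * Q)).filter (fun q : ℕ => a.Coprime q ∧
    ∀ r : ℕ, r.Prime → r ≤ z → r ∣ q → ¬ r ∣ a + 2 * c)

/-- the polynomial -/
private noncomputable def G (c : ℕ) : ℤ[X] := X + C ((2 * c : ℕ) : ℤ)

private theorem G_eval (c n : ℕ) : (G c).eval (n : ℤ) = ((n + 2 * c : ℕ) : ℤ) := by
  unfold G
  simp

private theorem G_dvd (c n r : ℕ) : (r : ℤ) ∣ (G c).eval (n : ℤ) ↔ r ∣ n + 2 * c := by
  rw [G_eval, Int.natCast_dvd_natCast]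

private theorem G_deg (c : ℕ) : (G c).natDegree ≤ 1 := by
  unfold G
  exact natDegree_X_add_C _ |>.le

/-- the number of the nonzero classes -/
private theorem om_eq (c : ℕ) {r : ℕ} (hr : r.Prime) :
    Pool.Agent.H537.TP.omP (G c) r = if r ≠ 2 ∧ ¬ r ∣ c then 1 else 0 := by
  unfold Pool.Agent.H537.TP.omP
  simp only [G_dvd]
  split_ifs with h
  · -- exactly one
    rw [card_eq_one]
    have hr0 : 0 < r := hr.pos
    set d := (2 * c) % r with hd
    have hd0 : d ≠ 0 := by
      intro h0
      have h1 : r ∣ 2 * c := Nat.dvd_of_mod_eq_zero h0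
      rcases (Nat.Prime.dvd_mul hr).mp h1 with h2 | h2
      · exact h.1 ((Nat.prime_dvd_prime_iff_eq hr Nat.prime_two).mp h2)
      · exact h.2 h2
    have hdr : d < r := Nat.mod_lt _ hr0
    refine ⟨r - d, ?_⟩
    ext m
    rw [mem_filter, mem_range, mem_singleton]
    have hmod : ∀ k : ℕ, r ∣ k + 2 * c ↔ r ∣ k + d := by
      intro k
      rw [Nat.dvd_iff_mod_eq_zero, Nat.dvd_iff_mod_eq_zero, hd, Nat.add_mod_mod]
    rw [hmod]
    constructor
    · rintro ⟨h1, h2, h3⟩
      obtain ⟨k, hk⟩ := h3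
      have hk1 : k = 1 := by
        rcases Nat.lt_or_ge k 1 with h4 | h4
        · have : k = 0 := by omega
          rw [this] at hk
          omega
        · rcases Nat.lt_or_ge k 2 with h5 | h5
          · omega
          · have : 2 * r ≤ r * k := by nlinarith
            omega
      rw [hk1] at hk
      omega
    · intro h1
      rw [h1]
      refine ⟨by omega, by omega, ?_⟩
      rw [Nat.sub_add_cancel hdr.le]
  · rw [card_eq_zero, filter_eq_empty_iff]
    rintro m hm ⟨hm0, hdv⟩
    apply hm0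
    rw [mem_range] at hm
    have h2 : r ∣ 2 * c := by
      by_contra hcon
      apply h
      refine ⟨?_, fun hc => hcon (hc.mul_left 2)⟩
      rintro rfl
      exact hcon (dvd_mul_right 2 c)
    have h3 : r ∣ m := (Nat.dvd_add_left h2).mp hdv
    exact Nat.eq_zero_of_dvd_of_lt h3 hm

private theorem adm (c : ℕ) {r : ℕ} (hr : r.Prime) : Pool.Agent.H537.TP.omP (G c) r + 1 < r := by
  rw [om_eq c hr]
  split_ifs with h
  · have := hr.two_le
    omega
  · have := hr.two_le
    omega

private theorem expected_eq (c z N q : ℕ) :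
    Pool.Agent.H537.TP.expP (G c) z N q (Real.log N) = expected c z N q := by
  classical
  unfold Pool.Agent.H537.TP.expP expected
  congr 1
  rw [show (Icc 1 z).filter (fun r : ℕ => r.Prime ∧ r ≠ 2 ∧ ¬ r ∣ q ∧ ¬ r ∣ c) =
    ((Icc 1 z).filter (fun r : ℕ => r.Prime ∧ ¬ r ∣ q)).filter (fun r : ℕ => r ≠ 2 ∧ ¬ r ∣ c) from by
      rw [filter_filter]
      apply filter_congr
      intro r _
      tauto]
  refine Eq.trans ?_ (prod_filter (fun r : ℕ => r ≠ 2 ∧ ¬ r ∣ c) _).symm
  apply prod_congr rfl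
  intro r hr
  rw [mem_filter] at hr
  rw [om_eq c hr.2.1]
  split_ifs
  · norm_num
  · norm_num

private theorem moduli_eq (c z Q a : ℕ) : Pool.Agent.H537.TP.MP (G c) z Q a = moduli c z Q a := by
  classical
  unfold Pool.Agent.H537.TP.MP moduli
  apply filter_congr
  intro q _
  simp only [G_dvd]

/-- indices and primes -/
private theorem count_eq (c z Y N q a : ℕ) : Pool.Agent.H537.TP.cntP (G c) z Y N q a = count c z Y N q a := by
  classical
  unfold Pool.Agent.H537.TP.cntP count
  simp only [G_dvd]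
  rw [← Set.ncard_coe_finset]
  symm
  apply Set.ncard_congr (fun n _ => p n)
  · rintro n ⟨h1, h2, h3, h4, h5⟩
    rw [Finset.mem_coe, mem_filter, mem_Ioc]
    exact ⟨⟨h2, h3⟩, Nat.nth_mem_of_infinite Nat.infinite_setOfPred_prime _, h4, h5⟩
  · rintro m n ⟨hm, _⟩ ⟨hn, _⟩ h
    have := Nat.nth_injective Nat.infinite_setOfPred_prime h
    omega
  · intro r hr
    rw [Finset.mem_coe, mem_filter, mem_Ioc] at hr
    obtain ⟨⟨h2, h3⟩, h1, h4, h5⟩ := hr
    have h6 : p (Nat.count Nat.Prime r + 1) = r := by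
      unfold p
      rw [Nat.add_sub_cancel]
      exact Nat.nth_count h1
    refine ⟨Nat.count Nat.Prime r + 1, ⟨by omega, ?_, ?_, ?_, ?_⟩, h6⟩
    · rw [h6]; exact h2
    · rw [h6]; exact h3
    · rw [h6]; exact h4
    · rw [h6]; exact h5

/-- **Limits of equidistribution for the constant polynomials, uniformly in the constant.** Let `B > 0`. There
is `h > 0` such that for every `A` there is `u` such that for every `ε > 0` and all large `N`, with
`Q = ⌊N / (log N) ^ B⌋`: for ALL constants `1 ≤ c ≤ N ^ A`, all integers `0 ≤ Y ≤ A N` and EVERY integer `z`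
with `z ^ u ≤ N` there is an integer `a` in `(Y, Y + N ^ ε]` such that the total number of the `n` with
`Y < p_n ≤ Y + N`, `p_n ≡ a (mod q)` and with `p_n + 2 c` free of prime factors `≤ z`, over the moduli
`q ∈ (Q, 2Q]`, is at least `1 + h` times the (positive) expected one, and there is one such that it is at most
`1 - h` times the (positive) expected one. -/
theorem result (B : ℝ) (hB : 0 < B) :
    ∃ h : ℝ, 0 < h ∧ ∀ A : ℝ, 1 ≤ A → ∃ u : ℕ, ∀ ε : ℝ, 0 < ε → ∀ᶠ N : ℕ in atTop,
      ∀ c Y z : ℕ, 1 ≤ c → (c : ℝ) ≤ (N : ℝ) ^ A → (Y : ℝ) ≤ A * N → z ^ u ≤ N →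
      (∃ a : ℕ, Y < a ∧ (a : ℝ) ≤ Y + (N : ℝ) ^ ε ∧
        0 < ∑ q ∈ moduli c z ⌊(N : ℝ) / Real.log N ^ B⌋₊ a, expected c z N q ∧
        (1 + h) * ∑ q ∈ moduli c z ⌊(N : ℝ) / Real.log N ^ B⌋₊ a, expected c z N q ≤
          ∑ q ∈ moduli c z ⌊(N : ℝ) / Real.log N ^ B⌋₊ a, (count c z Y N q a : ℝ)) ∧
      (∃ a : ℕ, Y < a ∧ (a : ℝ) ≤ Y + (N : ℝ) ^ ε ∧
        0 < ∑ q ∈ moduli c z ⌊(N : ℝ) / Real.log N ^ B⌋₊ a, expected c z N q ∧
        ∑ q ∈ moduli c z ⌊(N : ℝ) / Real.log N ^ B⌋₊ a, (count c z Y N q a : ℝ) ≤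
          (1 - h) * ∑ q ∈ moduli c z ⌊(N : ℝ) / Real.log N ^ B⌋₊ a, expected c z N q) := by
  obtain ⟨h, hh, hmain⟩ := Pool.Agent.H537.TP.mainP 1 B hB
  refine ⟨h, hh, fun A hA => ?_⟩
  obtain ⟨u, hu⟩ := hmain A hA
  refine ⟨u, fun ε hε => ?_⟩
  filter_upwards [hu (A + 2) (by linarith) ε hε, eventually_ge_atTop 4,
    tendsto_natCast_atTop_atTop.eventually_ge_atTop (A + 3)] with N hN hN4 hNA
  intro c Y z hc hcN hY hz
  have hN0 : (0 : ℝ) < N := by
    have : (0 : ℝ) < (4 : ℕ) := by norm_num
    have h4 : ((4 : ℕ) : ℝ) ≤ N := by exact_mod_cast hN4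
    linarith
  have hN1 : (1 : ℝ) ≤ N := by exact_mod_cast (show 1 ≤ N by omega)
  have key := hN (G c) Y z (G_deg c) (fun p hp => adm c hp) (by
    intro m hm
    rw [G_eval, Int.natAbs_natCast]
    have e1 : ((m + 2 * c : ℕ) : ℝ) ≤ N + Y + 2 * c := by
      push_cast
      have : (m : ℝ) ≤ ((N + Y : ℕ) : ℝ) := by exact_mod_cast hm
      push_cast at this
      linarith
    have e2 : (N : ℝ) ≤ (N : ℝ) ^ A := by
      calc (N : ℝ) = (N : ℝ) ^ (1 : ℝ) := (Real.rpow_one _).symm
        _ ≤ (N : ℝ) ^ A := Real.rpow_le_rpow_of_exponent_le hN1 hA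
    have e3 : (0 : ℝ) < (N : ℝ) ^ A := Real.rpow_pos_of_pos hN0 _
    calc ((m + 2 * c : ℕ) : ℝ) ≤ N + Y + 2 * c := e1
      _ ≤ N + A * N + 2 * (N : ℝ) ^ A := by linarith
      _ ≤ (A + 3) * (N : ℝ) ^ A := by nlinarith
      _ ≤ N * (N : ℝ) ^ A := mul_le_mul_of_nonneg_right hNA e3.le
      _ ≤ (N : ℝ) * ((N : ℝ) * (N : ℝ) ^ A) := by
          have : 0 ≤ (N : ℝ) * (N : ℝ) ^ A := by positivity
          nlinarith
      _ = (N : ℝ) ^ (A + 2) := by
          rw [Real.rpow_add hN0]
          norm_num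
          ring) hY hz
  simp only [moduli_eq, expected_eq, count_eq] at key
  exact key

end Pool.Agent.Results.MP_3aaefc_nt.LimitsForConstants
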