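import Mathlib
import Pool.Agent.H533.GE.FamS

set_option autoImplicit false
set_option maxHeartbeats 400000

/-!
# Primes of the form `p_n + 2 P(n)`: the small indices, for almost all slopes

`P = P₀ + a X + c`, more generally `P = Q + a R + c` with arbitrary functions `Q`, `R`. For almost all `a`
of an interval of length `K₀ log² x` and a positive proportion of the `c` between `x / 2` and `x` the set
of the small `n` for which `p_n + 2 P(n)` is prime lies in an arbitrary prescribed set and has at least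
`m` elements; the number of the `c` for which it is a given set `T` is of the order of magnitude of the
conjecture of Hardy and Littlewood, or larger, for a positive proportion of the sets `T`.
-/

namespace Pool.Agent.Results.MP_3aaefc_nt.PrescribedIndices

open Finset Polynomial

/-- the `n`-th prime, `n ≥ 1` -/
noncomputable def p (n : ℕ) : ℕ := Nat.nth Nat.Prime (n - 1)

/-- `p_n + 2 P(n)` is a prime number -/
def IsPrimeAt (P : ℚ[X]) (n : ℕ) : Prop := ∃ q : ℕ, q.Prime ∧ (q : ℚ) = p n + 2 * P.eval (n : ℚ)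

/-- the integer `z` is a prime number -/
def IsP (z : ℤ) : Prop := ∃ q : ℕ, q.Prime ∧ (q : ℤ) = z

/-- the number of the residue classes mod `q` of the integers `p_n + 2 (Q n + a R n)`, `n ∈ T` -/
noncomputable def nu (Q R : ℕ → ℤ) (a : ℕ) (T : Finset ℕ) (q : ℕ) : ℕ :=
  (T.image (fun n => ((p n : ℤ) + 2 * (Q n + a * R n)) % (q : ℤ))).card

/-- the singular series of the positions `p_n + 2 (Q n + a R n)`, `n ∈ T` -/
noncomputable def S (Q R : ℕ → ℤ) (a : ℕ) (T : Finset ℕ) : ℝ :=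
  ∏' q : Nat.Primes, (1 - (nu Q R a T q : ℝ) / ((q : ℕ) : ℝ)) / (1 - 1 / ((q : ℕ) : ℝ)) ^ T.card

open Classical in
/-- the number of the `c`, `x ≤ 2c < 2x`, with `{n ∈ J : p_n + 2 (Q n + a R n + c) prime} = T` -/
noncomputable def E (x : ℕ) (Q R : ℕ → ℤ) (a : ℕ) (J T : Finset ℕ) : ℕ :=
  ((range x).filter (fun c => x ≤ 2 * c ∧
    ∀ n ∈ J, (IsP ((p n : ℤ) + 2 * (Q n + a * R n + c)) ↔ n ∈ T))).card

/-- `n / φ(n)` -/
noncomputable def G (n : ℕ) : ℝ := (n : ℝ) / Nat.totient n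

/-- `J` has at most `Λ L` elements, `R` is injective on `J` and the sum of `G(|R(i) - R(j)|) ^ k` over the
ordered pairs of distinct elements of `J` is at most `C k * L ^ 2`, for every `k` -/
def Mom (C : ℕ → ℝ) (Λ L : ℝ) (R : ℕ → ℤ) (J : Finset ℕ) : Prop :=
  (J.card : ℝ) ≤ Λ * L ∧ Set.InjOn R (J : Set ℕ) ∧
    ∀ k : ℕ, ∑ q ∈ J.offDiag, G (R q.1 - R q.2).natAbs ^ k ≤ C k * L ^ 2

/-- the functions `Q`, `R` and the primes `p_n` are bounded by `Y` on the set `J` of integers `n ≥ 2` -/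
def Bdd (Y : ℝ) (Q R : ℕ → ℤ) (J : Finset ℕ) : Prop :=
  ∀ n ∈ J, 2 ≤ n ∧ (p n : ℝ) ≤ Y ∧ (((Q n).natAbs : ℕ) : ℝ) ≤ Y ∧ (((R n).natAbs : ℕ) : ℝ) ≤ Y

open Classical in
/-- all `a` with `u < a ≤ u + N` except at most `η N` have the property `H`, for all `u`, `N` with
`N ≥ K₀ (log x)²` and `u + N ≤ (log x) ^ B` -/
def Almost (η K₀ : ℝ) (B x : ℕ) (H : ℕ → Prop) : Prop :=
  ∀ u N : ℕ, K₀ * Real.log x ^ 2 ≤ N → ((u + N : ℕ) : ℝ) ≤ Real.log x ^ B →
    (((Ioc u (u + N)).filter (fun a : ℕ => ¬ H a)).card : ℝ) ≤ η * N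

open Classical in
/-- the number of the `c`, `x ≤ 2c < 2x`, such that for `P = P₀ + a X + c` the number `p_n + 2 P(n)` is
prime for at least `m` of the `n ∈ A` and for no other `n`, `1 ≤ n ≤ Λ log x` -/
noncomputable def W (m : ℕ) (Λ : ℝ) (P₀ : ℚ[X]) (x a : ℕ) (A : Finset ℕ) : ℕ :=
  ((range x).filter (fun c : ℕ => x ≤ 2 * c ∧
    m ≤ (A.filter (fun n => IsPrimeAt (P₀ + C (a : ℚ) * X + C (c : ℚ)) n)).card ∧
    ∀ n ∈ Icc 1 ⌊Λ * Real.log x⌋₊, IsPrimeAt (P₀ + C (a : ℚ) * X + C (c : ℚ)) n → n ∈ A)).card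

open Classical in
/-- at least `κ (log x) ^ l` of the `l`-element subsets `T` of `A` satisfy
`E x Q R a J T ≥ κ max(1, S T) x / (log x) ^ l` -/
def Many (κ : ℝ) (x l : ℕ) (Q R : ℕ → ℤ) (a : ℕ) (J A : Finset ℕ) : Prop :=
  κ * Real.log x ^ l ≤ (((A.powersetCard l).filter (fun T => κ * max 1 (S Q R a T) *
    (x / Real.log x ^ l) ≤ (E x Q R a J T : ℝ))).card : ℝ)

lemma card_mono {ι : Type*} {s : Finset ι} {P Q : ι → Prop} (iP : DecidablePred P)
    (iQ : DecidablePred Q) (h : ∀ a ∈ s, P a → Q a) :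
    (@Finset.filter ι P iP s).card ≤ (@Finset.filter ι Q iQ s).card := by
  apply card_le_card
  intro a ha
  rw [mem_filter] at ha ⊢
  exact ⟨ha.1, h a ha.1 ha.2⟩

lemma EC_le (x : ℕ) (Q R : ℕ → ℤ) (a : ℕ) (J T : Finset ℕ) :
    Pool.Agent.H533.GE.EC x Q R a J T ≤ E x Q R a J T := by
  unfold Pool.Agent.H533.GE.EC E
  apply card_mono
  intro c _ hc
  exact hc

lemma S_eq (Q R : ℕ → ℤ) (a : ℕ) (T : Finset ℕ) :
    S Q R a T = Pool.Agent.H533.GE.SZ (Pool.Agent.H533.GE.FQ Q R a) T := by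
  unfold S Pool.Agent.H533.GE.SZ nu
  apply tprod_congr
  intro q
  have h : (fun n => ((p n : ℤ) + 2 * (Q n + a * R n)) % ((q : ℕ) : ℤ)) =
      (fun k => Pool.Agent.H533.GE.FQ Q R a k % ((q : ℕ) : ℤ)) := by
    funext n
    rw [Pool.Agent.H533.GE.FQ_eq]
    rfl
  rw [h]

/-- (1) Let `Λ, ρ, η > 0` and `m` be given. There are `δ > 0` and `K₀` such that for every integer-valued
polynomial `P₀`, every `B` and all large `x`, almost all `a` (`Almost`) have the following property. For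
EVERY set `A` of at least `ρ log x` integers `2 ≤ n ≤ Λ log x` there are at least `δ x` integers `c`,
`x ≤ 2c < 2x`, such that, with `P = P₀ + a X + c`, `p_n + 2 P(n)` is prime for at least `m` of the
`n ∈ A` and for no other `n ≤ Λ log x`.

(2) For all `C`, `Λ, ρ, η > 0`, `m ≥ 1` there are `M`, `κ > 0` and `K₀` such that for every `B` and all
large `x`, all functions `Q`, `R` and all sets `J` with `Bdd ((log x) ^ B) Q R J` and
`Mom C Λ (log x) R J`, almost all `a` have the following property. For EVERY subset `A` of `J` with at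
least `ρ log x` elements there is `l`, `m ≤ l ≤ M`, such that for at least `κ (log x) ^ l` of the
`l`-element subsets `T` of `A` there are at least `κ max(1, S T) x / (log x) ^ l` integers `c` with
`{n ∈ J : p_n + 2 (Q n + a R n + c) prime} = T`.

(3) The same for every `l ≥ 1`, with `J` and `A` replaced by their elements `≤ t`, for some `t`.

(4) The condition `Mom` holds for `R n = n` and all subsets `J` of a window `(y, y + n]` with
`n ≤ b L`. -/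
theorem result :
    (∀ (Λ ρ η : ℝ), 0 < Λ → 0 < ρ → 0 < η → ∀ m : ℕ, ∃ δ K₀ : ℝ, 0 < δ ∧ ∀ P₀ : ℚ[X],
      (∀ k : ℤ, ∃ z : ℤ, P₀.eval (k : ℚ) = z) → ∀ B : ℕ, ∃ x₀ : ℕ, ∀ x : ℕ, x₀ ≤ x →
      Almost η K₀ B x (fun a => ∀ A ⊆ Icc 2 ⌊Λ * Real.log x⌋₊, ρ * Real.log x ≤ A.card →
        δ * x ≤ W m Λ P₀ x a A)) ∧
    (∀ (C : ℕ → ℝ) (Λ ρ η : ℝ), 0 < Λ → 0 < ρ → 0 < η → ∀ m : ℕ, 1 ≤ m →
      ∃ M : ℕ, ∃ κ K₀ : ℝ, 0 < κ ∧ ∀ B : ℕ, ∃ x₀ : ℕ, ∀ x : ℕ, x₀ ≤ x →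
      ∀ (Q R : ℕ → ℤ) (J : Finset ℕ), Bdd (Real.log x ^ B) Q R J → Mom C Λ (Real.log x) R J →
      Almost η K₀ B x (fun a => ∀ A ⊆ J, ρ * Real.log x ≤ A.card →
        ∃ l, m ≤ l ∧ l ≤ M ∧ Many κ x l Q R a J A)) ∧
    (∀ (C : ℕ → ℝ) (Λ ρ η : ℝ), 0 < Λ → 0 < ρ → 0 < η → ∀ l : ℕ, 1 ≤ l →
      ∃ κ K₀ : ℝ, 0 < κ ∧ ∀ B : ℕ, ∃ x₀ : ℕ, ∀ x : ℕ, x₀ ≤ x →
      ∀ (Q R : ℕ → ℤ) (J : Finset ℕ), Bdd (Real.log x ^ B) Q R J → Mom C Λ (Real.log x) R J →
      Almost η K₀ B x (fun a => ∀ A ⊆ J, ρ * Real.log x ≤ A.card → ∃ t : ℕ,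
        Many κ x l Q R a (J.filter (fun n => n ≤ t)) (A.filter (fun n => n ≤ t)))) ∧
    (∀ b : ℝ, 0 < b → ∃ C : ℕ → ℝ, ∀ (L : ℝ) (y n : ℕ) (J : Finset ℕ), 0 ≤ L → (n : ℝ) ≤ b * L →
      J ⊆ Ioc y (y + n) → Mom C b L (fun i => (i : ℤ)) J) := by
  refine ⟨?_, ?_, ?_, fun b hb => Pool.Agent.H533.GE.momZ_win b hb⟩
  · intro Λ ρ η hΛ hρ hη m
    obtain ⟨δ, K₀, hδ, H⟩ := Pool.Agent.H533.GE.fam1P Λ ρ η hΛ hρ hη m
    refine ⟨δ, K₀, hδ, fun P₀ hP B => ?_⟩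
    obtain ⟨x₀, h⟩ := H P₀ hP B
    refine ⟨x₀, fun x hx u N hN huN => ?_⟩
    have key := h x hx u N hN huN
    refine le_trans (Nat.cast_le.2 (card_mono _ _ ?_)) key
    intro a _ hna hcon
    apply hna
    intro A hA hAc
    have h1 := hcon A hA hAc
    unfold W
    refine h1.trans (Nat.cast_le.2 (card_mono _ _ ?_))
    intro c _ hc
    exact ⟨hc.1, hc.2.1.trans (card_mono _ _ fun n _ hn => hn), hc.2.2⟩
  · intro C Λ ρ η hΛ hρ hη m hm
    obtain ⟨M, κ, K₀, hκ, H⟩ := Pool.Agent.H533.GE.fam2 C Λ ρ η hΛ hρ hη m hm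
    refine ⟨M, κ, K₀, hκ, fun B => ?_⟩
    obtain ⟨x₀, h⟩ := H B
    refine ⟨x₀, fun x hx Q R J hJ hMom u N hN huN => ?_⟩
    have key := h x hx Q R J hJ hMom u N hN huN
    refine le_trans (Nat.cast_le.2 (card_mono _ _ ?_)) key
    intro a _ hna hcon
    apply hna
    intro A hA hAc
    obtain ⟨l, h1, h2, h3⟩ := hcon A hA hAc
    refine ⟨l, h1, h2, ?_⟩
    unfold Many
    refine h3.trans (Nat.cast_le.2 (card_mono _ _ ?_))
    intro T _ hT
    rw [S_eq]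
    exact hT.trans (Nat.cast_le.2 (EC_le x Q R a J T))
  · intro C Λ ρ η hΛ hρ hη l hl
    obtain ⟨κ, K₀, hκ, H⟩ := Pool.Agent.H533.GE.fam3 C Λ ρ η hΛ hρ hη l hl
    refine ⟨κ, K₀, hκ, fun B => ?_⟩
    obtain ⟨x₀, h⟩ := H B
    refine ⟨x₀, fun x hx Q R J hJ hMom u N hN huN => ?_⟩
    have key := h x hx Q R J hJ hMom u N hN huN
    refine le_trans (Nat.cast_le.2 (card_mono _ _ ?_)) key
    intro a _ hna hcon
    apply hna
    intro A hA hAc
    obtain ⟨t, h3⟩ := hcon A hA hAc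
    refine ⟨t, ?_⟩
    unfold Many
    refine h3.trans (Nat.cast_le.2 (card_mono _ _ ?_))
    intro T _ hT
    rw [S_eq]
    exact hT.trans (Nat.cast_le.2 (EC_le x Q R a _ T))

end Pool.Agent.Results.MP_3aaefc_nt.PrescribedIndices
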